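import Mathlib
import Pool.Agent.H78.PB.Stm2

/-!
Project PB, stub NOD: the chords between the nodes.
-/

set_option autoImplicit false

namespace Pool.Agent.H75PB.NOD

open Pool.Agent.H78.PB

/-- the tangent line is below the convex function `log ((1 + x) / (1 - x))` -/
theorem tan_le {s x : ℝ} (hs : 0 ≤ s) (hs1 : s < 1) (hx : 0 ≤ x) (hx1 : x < 1) :
    Real.log (1 + s) - Real.log (1 - s) + 2 * (x - s) / (1 - s ^ 2) ≤
      Real.log (1 + x) - Real.log (1 - x) := by
  have hs2 : 0 < 1 - s ^ 2 := by nlinarith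
  set g : ℝ → ℝ := fun y => Real.log (1 + y) - Real.log (1 - y) - 2 / (1 - s ^ 2) * y with hg
  have hd : ∀ y : ℝ, 0 ≤ y → y < 1 →
      HasDerivAt g (2 / (1 - y ^ 2) - 2 / (1 - s ^ 2)) y := by
    intro y hy hy1
    have h1 : HasDerivAt (fun y : ℝ => Real.log (1 + y)) (1 / (1 + y)) y :=
      ((hasDerivAt_id y).const_add 1).log (by simp; linarith)
    have h2 : HasDerivAt (fun y : ℝ => Real.log (1 - y)) (-1 / (1 - y)) y :=
      ((hasDerivAt_id y).const_sub 1).log (by simp; linarith)
    have h3 : HasDerivAt (fun y : ℝ => 2 / (1 - s ^ 2) * y) (2 / (1 - s ^ 2)) y := by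
      simpa using (hasDerivAt_id y).const_mul (2 / (1 - s ^ 2))
    have h4 := (h1.sub h2).sub h3
    refine h4.congr_deriv ?_
    have e1 : (1 + y) ≠ 0 := by linarith
    have e2 : (1 - y) ≠ 0 := by linarith
    have e3 : (1 - y ^ 2) ≠ 0 := by nlinarith
    have : 1 / (1 + y) - -1 / (1 - y) = 2 / (1 - y ^ 2) := by
      field_simp
      ring
    rw [this]
  have hkey : g s ≤ g x := by
    rcases le_total s x with h | h
    · have hm : MonotoneOn g (Set.Icc s x) := by
        apply monotoneOn_of_deriv_nonneg (convex_Icc s x)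
        · intro y hy
          exact (hd y (hs.trans hy.1) (hy.2.trans_lt hx1)).continuousAt.continuousWithinAt
        · intro y hy
          rw [interior_Icc] at hy
          exact (hd y (hs.trans hy.1.le) (hy.2.trans hx1)).differentiableAt.differentiableWithinAt
        · intro y hy
          rw [interior_Icc] at hy
          rw [(hd y (hs.trans hy.1.le) (hy.2.trans hx1)).deriv]
          have : (2 : ℝ) / (1 - s ^ 2) ≤ 2 / (1 - y ^ 2) := by
            apply div_le_div_of_nonneg_left (by norm_num)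
            · nlinarith [hy.1, hy.2]
            · nlinarith [hy.1, hy.2]
          linarith
      exact hm (Set.left_mem_Icc.mpr h) (Set.right_mem_Icc.mpr h) h
    · have hm : AntitoneOn g (Set.Icc x s) := by
        apply antitoneOn_of_deriv_nonpos (convex_Icc x s)
        · intro y hy
          exact (hd y (hx.trans hy.1) (hy.2.trans_lt hs1)).continuousAt.continuousWithinAt
        · intro y hy
          rw [interior_Icc] at hy
          exact (hd y (hx.trans hy.1.le) (hy.2.trans hs1)).differentiableAt.differentiableWithinAt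
        · intro y hy
          rw [interior_Icc] at hy
          rw [(hd y (hx.trans hy.1.le) (hy.2.trans hs1)).deriv]
          have : (2 : ℝ) / (1 - y ^ 2) ≤ 2 / (1 - s ^ 2) := by
            apply div_le_div_of_nonneg_left (by norm_num)
            · nlinarith [hy.1, hy.2]
            · nlinarith [hy.1, hy.2]
          linarith
      exact hm (Set.left_mem_Icc.mpr h) (Set.right_mem_Icc.mpr h) h
  simp only [hg] at hkey
  have : 2 * (x - s) / (1 - s ^ 2) = 2 / (1 - s ^ 2) * x - 2 / (1 - s ^ 2) * s := by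
    field_simp
  rw [this]
  linarith

/-- one chord -/
theorem seg {m₀ k₀ m₁ k₁ s : ℝ} (hm : 1 ≤ m₀) (hm1 : m₀ < m₁) (hk0 : 0 < k₀) (hk1 : 0 < k₁)
    (hs : 0 ≤ s) (hs1 : s < 1)
    (h0 : Real.log k₀ ≤ Real.log (1 + s) - Real.log (1 - s) + 2 * ((1 - 1 / m₀) - s) / (1 - s ^ 2))
    (h1 : Real.log k₁ < Real.log (1 + s) - Real.log (1 - s) + 2 * ((1 - 1 / m₁) - s) / (1 - s ^ 2))
    (p : ℝ) (hp : 2 * m₀ < p) (hp1 : p ≤ 2 * m₁) :
    ∃ t : ℝ, 0 ≤ t ∧ t ≤ 1 ∧ 1 / p = (1 - t) / (2 * m₀) + t / (2 * m₁) ∧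
      k₀ ^ (1 - t) * k₁ ^ t < p - 1 := by
  have hm0 : 0 < m₀ := by linarith
  have hm1' : 0 < m₁ := by linarith
  have hp0 : 0 < p := by linarith
  have hD : 0 < m₁ - m₀ := by linarith
  refine ⟨(p - 2 * m₀) * m₁ / (p * (m₁ - m₀)), ?_, ?_, ?_, ?_⟩
  · apply div_nonneg
    · apply mul_nonneg <;> linarith
    · positivity
  · rw [div_le_one (by positivity)]
    nlinarith
  · field_simp
    ring
  · set t := (p - 2 * m₀) * m₁ / (p * (m₁ - m₀)) with ht
    have ht0 : 0 < t := by
      rw [ht]
      apply div_pos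
      · apply mul_pos <;> linarith
      · positivity
    have ht1 : t ≤ 1 := by
      rw [ht, div_le_one (by positivity)]
      nlinarith
    have hx : 1 - 2 / p = (1 - t) * (1 - 1 / m₀) + t * (1 - 1 / m₁) := by
      rw [ht]
      field_simp
      ring
    have hx0 : 0 ≤ 1 - 2 / p := by
      have : 2 / p ≤ 1 := by
        rw [div_le_one hp0]
        linarith
      linarith
    have hx1 : 1 - 2 / p < 1 := by
      have : 0 < 2 / p := by positivity
      linarith
    have hT := tan_le hs hs1 hx0 hx1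
    have hL : Real.log (1 + (1 - 2 / p)) - Real.log (1 - (1 - 2 / p)) = Real.log (p - 1) := by
      rw [← Real.log_div]
      · congr 1
        field_simp
        ring
      · have : 0 < 1 + (1 - 2 / p) := by linarith
        exact this.ne'
      · have : 0 < 1 - (1 - 2 / p) := by linarith
        exact this.ne'
    rw [hL, hx] at hT
    have hlt : (1 - t) * Real.log k₀ + t * Real.log k₁ < Real.log (p - 1) := by
      refine lt_of_lt_of_le ?_ hT
      have e : Real.log (1 + s) - Real.log (1 - s) +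
          2 * ((1 - t) * (1 - 1 / m₀) + t * (1 - 1 / m₁) - s) / (1 - s ^ 2) =
          (1 - t) * (Real.log (1 + s) - Real.log (1 - s) + 2 * ((1 - 1 / m₀) - s) / (1 - s ^ 2)) +
          t * (Real.log (1 + s) - Real.log (1 - s) + 2 * ((1 - 1 / m₁) - s) / (1 - s ^ 2)) := by
        ring
      rw [e]
      have a := mul_le_mul_of_nonneg_left h0 (by linarith : 0 ≤ 1 - t)
      have b := mul_lt_mul_of_pos_left h1 ht0
      linarith
    have hp1' : 0 < p - 1 := by linarith
    rw [← Real.log_lt_log_iff (by positivity) hp1', Real.log_mul (by positivity) (by positivity),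
      Real.log_rpow hk0, Real.log_rpow hk1]
    exact hlt

theorem log_le_of {q a : ℝ} (hq : 0 < q) (ha : 0 ≤ a) (n : ℕ)
    (h : q ≤ ∑ i ∈ Finset.range n, a ^ i / (i.factorial : ℝ)) : Real.log q ≤ a := by
  rw [Real.log_le_iff_le_exp hq]
  exact h.trans (Real.sum_le_exp_of_nonneg ha n)

theorem le_log_of {q a : ℝ} (hq : 0 < q) (ha : 0 ≤ a) (ha1 : a ≤ 4) (n : ℕ) (hn : 0 < n)
    (h : ((∑ m ∈ Finset.range n, (a / 4) ^ m / (m.factorial : ℝ)) +
      (a / 4) ^ n * (n + 1) / (n.factorial * n)) ^ 4 ≤ q) : a ≤ Real.log q := by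
  rw [Real.le_log_iff_exp_le hq]
  have h1 := Real.exp_bound' (x := a / 4) (by positivity) (by linarith) hn
  have h2 : Real.exp a = Real.exp (a / 4) ^ 4 := by
    rw [← Real.exp_nat_mul]
    congr 1
    push_cast
    ring
  rw [h2]
  exact (pow_le_pow_left₀ (Real.exp_pos _).le h1 4).trans h

/-- the chord, with rational numbers -/
theorem segq {m₀ k₀ m₁ k₁ s : ℝ} (a₀ a₁ l : ℝ) (hm : 1 ≤ m₀) (hm1 : m₀ < m₁) (hk0 : 0 < k₀)
    (hk1 : 0 < k₁) (hs : 0 ≤ s) (hs1 : s < 1) (hl : l ≤ Real.log ((1 + s) / (1 - s)))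
    (ha0 : Real.log k₀ ≤ a₀) (ha1 : Real.log k₁ ≤ a₁)
    (h0 : a₀ ≤ l + 2 * ((1 - 1 / m₀) - s) / (1 - s ^ 2))
    (h1 : a₁ < l + 2 * ((1 - 1 / m₁) - s) / (1 - s ^ 2))
    (p : ℝ) (hp : 2 * m₀ < p) (hp1 : p ≤ 2 * m₁) :
    ∃ t : ℝ, 0 ≤ t ∧ t ≤ 1 ∧ 1 / p = (1 - t) / (2 * m₀) + t / (2 * m₁) ∧
      k₀ ^ (1 - t) * k₁ ^ t < p - 1 := by
  rw [Real.log_div (by linarith) (by linarith)] at hl
  exact seg hm hm1 hk0 hk1 hs hs1 (by linarith) (by linarith) p hp hp1

/-- NOD -/
theorem t : P_NOD := by
  intro p hp hp6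
  by_cases c1 : p ≤ 2 * (11 / 10)
  · obtain ⟨t, h⟩ := segq (m₀ := 1) (k₀ := 1) (m₁ := 11 / 10) (k₁ := 1199 / 1000) (s := 0)
      0 (1815 / 10000) 0 (by norm_num) (by norm_num) (by norm_num) (by norm_num) (by norm_num)
      (by norm_num) (by norm_num) (by norm_num)
      (log_le_of (by norm_num) (by norm_num) 6
        (by norm_num [Finset.sum_range_succ, Nat.factorial])) (by norm_num) (by norm_num)
      p (by linarith) c1
    exact ⟨1, 1, 11 / 10, 1199 / 1000, t, by simp, h⟩
  push Not at c1
  by_cases c2 : p ≤ 2 * (13 / 10)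
  · obtain ⟨t, h⟩ := segq (m₀ := 11 / 10) (k₀ := 1199 / 1000) (m₁ := 13 / 10)
      (k₁ := 15945 / 10000) (s := 137 / 1000)
      (18150 / 100000) (46658 / 100000) (27572 / 100000) (by norm_num) (by norm_num)
      (by norm_num) (by norm_num) (by norm_num) (by norm_num)
      (le_log_of (by norm_num) (by norm_num) (by norm_num) 6 (by norm_num)
        (by norm_num [Finset.sum_range_succ, Nat.factorial]))
      (log_le_of (by norm_num) (by norm_num) 7
        (by norm_num [Finset.sum_range_succ, Nat.factorial]))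
      (log_le_of (by norm_num) (by norm_num) 8
        (by norm_num [Finset.sum_range_succ, Nat.factorial])) (by norm_num) (by norm_num)
      p c1 c2
    exact ⟨11 / 10, 1199 / 1000, 13 / 10, 15945 / 10000, t, by simp, h⟩
  push Not at c2
  by_cases c3 : p ≤ 2 * (13 / 8)
  · obtain ⟨t, h⟩ := segq (m₀ := 13 / 10) (k₀ := 15945 / 10000) (m₁ := 13 / 8)
      (k₁ := 2233 / 1000) (s := 294 / 1000)
      (46660 / 100000) (80340 / 100000) (60580 / 100000) (by norm_num) (by norm_num)
      (by norm_num) (by norm_num) (by norm_num) (by norm_num)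
      (le_log_of (by norm_num) (by norm_num) (by norm_num) 6 (by norm_num)
        (by norm_num [Finset.sum_range_succ, Nat.factorial]))
      (log_le_of (by norm_num) (by norm_num) 8
        (by norm_num [Finset.sum_range_succ, Nat.factorial]))
      (log_le_of (by norm_num) (by norm_num) 10
        (by norm_num [Finset.sum_range_succ, Nat.factorial])) (by norm_num) (by norm_num)
      p c2 c3
    exact ⟨13 / 10, 15945 / 10000, 13 / 8, 2233 / 1000, t, by simp, h⟩
  push Not at c3
  by_cases c4 : p ≤ 2 * 2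
  · obtain ⟨t, h⟩ := segq (m₀ := 13 / 8) (k₀ := 2233 / 1000) (m₁ := 2)
      (k₁ := 2965 / 1000) (s := 431 / 1000)
      (8040 / 10000) (10875 / 10000) (9220 / 10000) (by norm_num) (by norm_num)
      (by norm_num) (by norm_num) (by norm_num) (by norm_num)
      (le_log_of (by norm_num) (by norm_num) (by norm_num) 7 (by norm_num)
        (by norm_num [Finset.sum_range_succ, Nat.factorial]))
      (log_le_of (by norm_num) (by norm_num) 10
        (by norm_num [Finset.sum_range_succ, Nat.factorial]))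
      (log_le_of (by norm_num) (by norm_num) 11
        (by norm_num [Finset.sum_range_succ, Nat.factorial])) (by norm_num) (by norm_num)
      p c3 c4
    exact ⟨13 / 8, 2233 / 1000, 2, 2965 / 1000, t, by simp, h⟩
  push Not at c4
  by_cases c5 : p ≤ 2 * (49 / 20)
  · obtain ⟨t, h⟩ := segq (m₀ := 2) (k₀ := 2965 / 1000) (m₁ := 49 / 20)
      (k₁ := 387 / 100) (s := 557 / 1000)
      (10875 / 10000) (13537 / 10000) (12565 / 10000) (by norm_num) (by norm_num)
      (by norm_num) (by norm_num) (by norm_num) (by norm_num)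
      (le_log_of (by norm_num) (by norm_num) (by norm_num) 7 (by norm_num)
        (by norm_num [Finset.sum_range_succ, Nat.factorial]))
      (log_le_of (by norm_num) (by norm_num) 11
        (by norm_num [Finset.sum_range_succ, Nat.factorial]))
      (log_le_of (by norm_num) (by norm_num) 12
        (by norm_num [Finset.sum_range_succ, Nat.factorial])) (by norm_num) (by norm_num)
      p c4 c5
    exact ⟨2, 2965 / 1000, 49 / 20, 387 / 100, t, by simp, h⟩
  push Not at c5
  · obtain ⟨t, h⟩ := segq (m₀ := 49 / 20) (k₀ := 387 / 100) (m₁ := 3)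
      (k₁ := 495 / 100) (s := 626 / 1000)
      (13537 / 10000) (15999 / 10000) (14692 / 10000) (by norm_num) (by norm_num)
      (by norm_num) (by norm_num) (by norm_num) (by norm_num)
      (le_log_of (by norm_num) (by norm_num) (by norm_num) 8 (by norm_num)
        (by norm_num [Finset.sum_range_succ, Nat.factorial]))
      (log_le_of (by norm_num) (by norm_num) 12
        (by norm_num [Finset.sum_range_succ, Nat.factorial]))
      (log_le_of (by norm_num) (by norm_num) 14
        (by norm_num [Finset.sum_range_succ, Nat.factorial])) (by norm_num) (by norm_num)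
      p c5 (by linarith)
    exact ⟨49 / 20, 387 / 100, 3, 495 / 100, t, by simp, h⟩

end Pool.Agent.H75PB.NOD
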