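import Mathlib
import Pool.Agent.H78.PB.Stm3
import Pool.Agent.H75PB.NOD

/-!
Project PB, stub NOD2: the chords between the nodes, with slightly larger constants.
-/

set_option autoImplicit false

namespace Pool.Agent.H75PB.NOD2

open Pool.Agent.H78.PB Pool.Agent.H75PB.NOD

theorem wk {m₀ k₀ m₁ k₁ p : ℝ} (h : ∃ t : ℝ, 0 ≤ t ∧ t ≤ 1 ∧
      1 / p = (1 - t) / (2 * m₀) + t / (2 * m₁) ∧ k₀ ^ (1 - t) * k₁ ^ t < p - 1) :
    ∃ t : ℝ, 0 ≤ t ∧ t ≤ 1 ∧
      1 / p = (1 - t) / (2 * m₀) + t / (2 * m₁) ∧ k₀ ^ (1 - t) * k₁ ^ t ≤ p - 1 := by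
  obtain ⟨t, a, b, c, d⟩ := h
  exact ⟨t, a, b, c, d.le⟩

/-- NOD2 -/
theorem t : P_NOD2 := by
  intro p hp hp6
  rcases eq_or_lt_of_le hp with rfl | hp
  · refine ⟨1, 1, 11 / 10, 11992 / 10000, 0, by simp, le_rfl, zero_le_one, by norm_num, ?_⟩
    norm_num
  by_cases c1 : p ≤ 2 * (11 / 10)
  · obtain ⟨t, h⟩ := wk <| segq (m₀ := 1) (k₀ := 1) (m₁ := 11 / 10) (k₁ := 11992 / 10000) (s := 0)
      0 (18166 / 100000) 0 (by norm_num) (by norm_num) (by norm_num) (by norm_num) (by norm_num)
      (by norm_num) (by norm_num) (by norm_num)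
      (log_le_of (by norm_num) (by norm_num) 7
        (by norm_num [Finset.sum_range_succ, Nat.factorial])) (by norm_num) (by norm_num)
      p (by linarith) c1
    exact ⟨1, 1, 11 / 10, 11992 / 10000, t, by simp, h⟩
  push Not at c1
  by_cases c2 : p ≤ 2 * (13 / 10)
  · obtain ⟨t, h⟩ := wk <| segq (m₀ := 11 / 10) (k₀ := 11992 / 10000) (m₁ := 13 / 10)
      (k₁ := 15948 / 10000) (s := 1373 / 10000)
      (18167 / 100000) (46676 / 100000) (27633 / 100000) (by norm_num) (by norm_num)
      (by norm_num) (by norm_num) (by norm_num) (by norm_num)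
      (le_log_of (by norm_num) (by norm_num) (by norm_num) 6 (by norm_num)
        (by norm_num [Finset.sum_range_succ, Nat.factorial]))
      (log_le_of (by norm_num) (by norm_num) 7
        (by norm_num [Finset.sum_range_succ, Nat.factorial]))
      (log_le_of (by norm_num) (by norm_num) 8
        (by norm_num [Finset.sum_range_succ, Nat.factorial])) (by norm_num) (by norm_num)
      p c1 c2
    exact ⟨11 / 10, 11992 / 10000, 13 / 10, 15948 / 10000, t, by simp, h⟩
  push Not at c2
  by_cases c3 : p ≤ 2 * (13 / 8)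
  · obtain ⟨t, h⟩ := wk <| segq (m₀ := 13 / 10) (k₀ := 15948 / 10000) (m₁ := 13 / 8)
      (k₁ := 2234 / 1000) (s := 295 / 1000)
      (46680 / 100000) (80385 / 100000) (60805 / 100000) (by norm_num) (by norm_num)
      (by norm_num) (by norm_num) (by norm_num) (by norm_num)
      (le_log_of (by norm_num) (by norm_num) (by norm_num) 6 (by norm_num)
        (by norm_num [Finset.sum_range_succ, Nat.factorial]))
      (log_le_of (by norm_num) (by norm_num) 8
        (by norm_num [Finset.sum_range_succ, Nat.factorial]))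
      (log_le_of (by norm_num) (by norm_num) 10
        (by norm_num [Finset.sum_range_succ, Nat.factorial])) (by norm_num) (by norm_num)
      p c2 c3
    exact ⟨13 / 10, 15948 / 10000, 13 / 8, 2234 / 1000, t, by simp, h⟩
  push Not at c3
  by_cases c4 : p ≤ 2 * 2
  · obtain ⟨t, h⟩ := wk <| segq (m₀ := 13 / 8) (k₀ := 2234 / 1000) (m₁ := 2)
      (k₁ := 2967 / 1000) (s := 432 / 1000)
      (8040 / 10000) (10877 / 10000) (9246 / 10000) (by norm_num) (by norm_num)
      (by norm_num) (by norm_num) (by norm_num) (by norm_num)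
      (le_log_of (by norm_num) (by norm_num) (by norm_num) 7 (by norm_num)
        (by norm_num [Finset.sum_range_succ, Nat.factorial]))
      (log_le_of (by norm_num) (by norm_num) 10
        (by norm_num [Finset.sum_range_succ, Nat.factorial]))
      (log_le_of (by norm_num) (by norm_num) 11
        (by norm_num [Finset.sum_range_succ, Nat.factorial])) (by norm_num) (by norm_num)
      p c3 c4
    exact ⟨13 / 8, 2234 / 1000, 2, 2967 / 1000, t, by simp, h⟩
  push Not at c4
  by_cases c5 : p ≤ 2 * (49 / 20)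
  · obtain ⟨t, h⟩ := wk <| segq (m₀ := 2) (k₀ := 2967 / 1000) (m₁ := 49 / 20)
      (k₁ := 3873 / 1000) (s := 557 / 1000)
      (10877 / 10000) (13543 / 10000) (12565 / 10000) (by norm_num) (by norm_num)
      (by norm_num) (by norm_num) (by norm_num) (by norm_num)
      (le_log_of (by norm_num) (by norm_num) (by norm_num) 7 (by norm_num)
        (by norm_num [Finset.sum_range_succ, Nat.factorial]))
      (log_le_of (by norm_num) (by norm_num) 11
        (by norm_num [Finset.sum_range_succ, Nat.factorial]))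
      (log_le_of (by norm_num) (by norm_num) 12
        (by norm_num [Finset.sum_range_succ, Nat.factorial])) (by norm_num) (by norm_num)
      p c4 c5
    exact ⟨2, 2967 / 1000, 49 / 20, 3873 / 1000, t, by simp, h⟩
  push Not at c5
  · obtain ⟨t, h⟩ := wk <| segq (m₀ := 49 / 20) (k₀ := 3873 / 1000) (m₁ := 3)
      (k₁ := 4953 / 1000) (s := 626 / 1000)
      (13543 / 10000) (16002 / 10000) (14692 / 10000) (by norm_num) (by norm_num)
      (by norm_num) (by norm_num) (by norm_num) (by norm_num)
      (le_log_of (by norm_num) (by norm_num) (by norm_num) 8 (by norm_num)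
        (by norm_num [Finset.sum_range_succ, Nat.factorial]))
      (log_le_of (by norm_num) (by norm_num) 12
        (by norm_num [Finset.sum_range_succ, Nat.factorial]))
      (log_le_of (by norm_num) (by norm_num) 14
        (by norm_num [Finset.sum_range_succ, Nat.factorial])) (by norm_num) (by norm_num)
      p c5 (by linarith)
    exact ⟨49 / 20, 3873 / 1000, 3, 4953 / 1000, t, by simp, h⟩

end Pool.Agent.H75PB.NOD2
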