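import Mathlib
import Pool.Agent.H78.PB.Stm2

/-!
Project PB, stub RR: the key convexity inequality.
-/

set_option autoImplicit false

open MeasureTheory Filter Topology

namespace Pool.Agent.H75PB.RR

open Pool.Agent.H78.PB

theorem p1_nonneg {θ : ℝ} (h0 : 0 < θ) (h1 : θ < 1) (y : ℝ) : 0 ≤ p1 θ y := by
  have hs : 0 ≤ Real.sin (Real.pi * θ) := by
    apply Real.sin_nonneg_of_nonneg_of_le_pi
    · have := Real.pi_pos
      positivity
    · nlinarith [Real.pi_pos]
  have hc : 0 ≤ Real.cosh (Real.pi * y) + Real.cos (Real.pi * θ) := by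
    have := Real.one_le_cosh (Real.pi * y)
    have := Real.neg_one_le_cos (Real.pi * θ)
    linarith
  exact div_nonneg hs (by linarith)

theorem p1_cont {θ : ℝ} (h0 : 0 < θ) (h1 : θ < 1) : Continuous (p1 θ) := by
  unfold p1
  apply Continuous.div continuous_const
  · fun_prop
  · intro y
    have h := Real.one_le_cosh (Real.pi * y)
    have h2 : -1 < Real.cos (Real.pi * θ) := by
      rw [← Real.cos_pi]
      apply Real.cos_lt_cos_of_nonneg_of_le_pi
      · have := Real.pi_pos
        positivity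
      · exact le_refl _
      · nlinarith [Real.pi_pos]
    have : 0 < 2 * (Real.cosh (Real.pi * y) + Real.cos (Real.pi * θ)) := by linarith
    exact this.ne'

/-- a comparison principle for `g'' - g` -/
theorem cmp_pos {g g1 g2 : ℝ → ℝ} (hg : ∀ t, HasDerivAt g (g1 t) t)
    (hg1 : ∀ t, HasDerivAt g1 (g2 t) t) (h : ∀ t, g t ≤ g2 t) (h0 : g 0 = 0) (h1 : g1 0 = 0)
    {t : ℝ} (ht : 0 ≤ t) : 0 ≤ g t := by
  have hu : Monotone (fun t => (g1 t + g t) * Real.exp (-t)) := by
    apply monotone_of_hasDerivAt_nonneg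
      (f' := fun t => (g2 t - g t) * Real.exp (-t))
    · intro t
      have he : HasDerivAt (fun t : ℝ => Real.exp (-t)) (-Real.exp (-t)) t := by
        have := (hasDerivAt_neg t).exp
        simpa using this
      refine (((hg1 t).add (hg t)).mul he).congr_deriv ?_
      simp only [Pi.add_apply]
      ring
    · intro t
      exact mul_nonneg (by linarith [h t]) (Real.exp_pos _).le
  have hu2 : ∀ t, 0 ≤ t → 0 ≤ g1 t + g t := by
    intro t ht
    have := hu ht
    simp only [h0, h1] at this
    have he := Real.exp_pos (-t)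
    by_contra hc
    push Not at hc
    have := mul_neg_of_neg_of_pos hc he
    linarith
  have hv : MonotoneOn (fun t => g t * Real.exp t) (Set.Ici 0) := by
    have hd : ∀ t, HasDerivAt (fun t => g t * Real.exp t) ((g1 t + g t) * Real.exp t) t := by
      intro t
      refine ((hg t).mul (Real.hasDerivAt_exp t)).congr_deriv ?_
      ring
    apply monotoneOn_of_deriv_nonneg (convex_Ici 0)
    · exact fun t _ => (hd t).continuousAt.continuousWithinAt
    · exact fun t _ => (hd t).differentiableAt.differentiableWithinAt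
    · intro t ht
      rw [interior_Ici] at ht
      rw [(hd t).deriv]
      exact mul_nonneg (hu2 t ht.le) (Real.exp_pos _).le
  have := hv (Set.mem_Ici.mpr le_rfl) (Set.mem_Ici.mpr ht) ht
  simp only [h0, zero_mul] at this
  by_contra hc
  push Not at hc
  have := mul_neg_of_neg_of_pos hc (Real.exp_pos t)
  linarith

theorem cmp_all {g g1 g2 : ℝ → ℝ} (hg : ∀ t, HasDerivAt g (g1 t) t)
    (hg1 : ∀ t, HasDerivAt g1 (g2 t) t) (h : ∀ t, g t ≤ g2 t) (h0 : g 0 = 0) (h1 : g1 0 = 0)
    (t : ℝ) : 0 ≤ g t := by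
  rcases le_total 0 t with ht | ht
  · exact cmp_pos hg hg1 h h0 h1 ht
  · have := cmp_pos (g := fun t => g (-t)) (g1 := fun t => - g1 (-t)) (g2 := fun t => g2 (-t))
      (fun t => by
        have := (hg (-t)).comp t (hasDerivAt_neg t)
        exact this.congr_deriv (by ring))
      (fun t => by
        have := ((hg1 (-t)).comp t (hasDerivAt_neg t)).neg
        exact this.congr_deriv (by ring))
      (fun t => h _) (by simpa using h0) (by simpa using h1) (t := -t) (by linarith)
    simpa using this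

section

variable {θ : ℝ} (hI : ∀ k : ℕ, Integrable (fun y : ℝ => p1 θ y * (1 + |y|) ^ k))
  (hn : ∀ y, 0 ≤ p1 θ y) (hc : Continuous (p1 θ))

/-- integrability of `p1 · P(y) · F` for bounded `F` -/
theorem int_of (hI : ∀ k : ℕ, Integrable (fun y : ℝ => p1 θ y * (1 + |y|) ^ k))
    (hn : ∀ y, 0 ≤ p1 θ y) (k : ℕ) (F : ℝ → ℝ) (hF : Continuous F) (hc : Continuous (p1 θ))
    (hb : ∀ y, |F y| ≤ (1 + |y|) ^ k) : Integrable (fun y => p1 θ y * F y) := by
  refine (hI k).mono' (hc.mul hF).aestronglyMeasurable (ae_of_all _ fun y => ?_)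
  rw [Real.norm_eq_abs, abs_mul, abs_of_nonneg (hn y)]
  exact mul_le_mul_of_nonneg_left (hb y) (hn y)

theorem b2 (y : ℝ) : 1 + y ^ 2 ≤ (1 + |y|) ^ 2 := by
  nlinarith [abs_nonneg y, sq_abs y]

theorem b3 (y : ℝ) : (1 + y ^ 2) * |y| ≤ (1 + |y|) ^ 3 := by
  have h := b2 y
  have h0 := abs_nonneg y
  calc (1 + y ^ 2) * |y| ≤ (1 + |y|) ^ 2 * (1 + |y|) := by
        apply mul_le_mul h (by linarith) h0 (by positivity)
    _ = (1 + |y|) ^ 3 := by ring

theorem b4 (y : ℝ) : (1 + y ^ 2) * y ^ 2 ≤ (1 + |y|) ^ 4 := by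
  have h := b2 y
  calc (1 + y ^ 2) * y ^ 2 ≤ (1 + |y|) ^ 2 * (1 + |y|) ^ 2 := by
        apply mul_le_mul h (by linarith) (by positivity) (by positivity)
    _ = (1 + |y|) ^ 4 := by ring

/-- the first derivative -/
theorem der1 (hI : ∀ k : ℕ, Integrable (fun y : ℝ => p1 θ y * (1 + |y|) ^ k))
    (hn : ∀ y, 0 ≤ p1 θ y) (hc : Continuous (p1 θ)) (t : ℝ) :
    HasDerivAt (rr θ) (rd θ t) t := by
  have := hasDerivAt_integral_of_dominated_loc_of_deriv_le
    (μ := volume) (F := fun (t y : ℝ) => p1 θ y * (1 + y ^ 2) * Real.cos (t * y))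
    (F' := fun (t y : ℝ) => p1 θ y * (1 + y ^ 2) * (- Real.sin (t * y) * y))
    (x₀ := t) (s := Set.univ) (bound := fun y => p1 θ y * (1 + |y|) ^ 3) univ_mem
    (Eventually.of_forall fun t => by
      have : Continuous (fun y : ℝ => p1 θ y * (1 + y ^ 2) * Real.cos (t * y)) := by fun_prop
      exact this.aestronglyMeasurable)
    (by
      have := int_of hI hn 2 (fun y => (1 + y ^ 2) * Real.cos (t * y)) (by fun_prop) hc (by
        intro y
        rw [abs_mul, abs_of_nonneg (by positivity : (0 : ℝ) ≤ 1 + y ^ 2)]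
        calc (1 + y ^ 2) * |Real.cos (t * y)| ≤ (1 + y ^ 2) * 1 :=
              mul_le_mul_of_nonneg_left (Real.abs_cos_le_one _) (by positivity)
          _ ≤ (1 + |y|) ^ 2 := by linarith [b2 y])
      simpa [mul_assoc] using this)
    (by
      have : Continuous (fun y : ℝ => p1 θ y * (1 + y ^ 2) * (- Real.sin (t * y) * y)) := by
        fun_prop
      exact this.aestronglyMeasurable)
    (ae_of_all _ fun y x _ => by
      have h1 : |(1 + y ^ 2) * (-Real.sin (x * y) * y)| ≤ (1 + |y|) ^ 3 := by
        rw [abs_mul, abs_mul, abs_neg, abs_of_nonneg (by positivity : (0 : ℝ) ≤ 1 + y ^ 2)]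
        calc (1 + y ^ 2) * (|Real.sin (x * y)| * |y|) ≤ (1 + y ^ 2) * (1 * |y|) := by
              apply mul_le_mul_of_nonneg_left _ (by positivity)
              exact mul_le_mul_of_nonneg_right (Real.abs_sin_le_one _) (abs_nonneg y)
          _ ≤ (1 + |y|) ^ 3 := by
              rw [one_mul]
              exact b3 y
      rw [Real.norm_eq_abs, mul_assoc, abs_mul, abs_of_nonneg (hn y)]
      exact mul_le_mul_of_nonneg_left h1 (hn y))
    (hI 3)
    (ae_of_all _ fun y x _ => by
      have h1 : HasDerivAt (fun x : ℝ => Real.cos (x * y)) (-Real.sin (x * y) * y) x := by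
        have := (hasDerivAt_mul_const (x := x) y).cos
        simpa using this
      exact h1.const_mul _)
  refine this.2.congr_deriv ?_
  rw [rd, ← integral_neg]
  congr 1
  ext y
  ring

/-- the second derivative -/
theorem der2 (hI : ∀ k : ℕ, Integrable (fun y : ℝ => p1 θ y * (1 + |y|) ^ k))
    (hn : ∀ y, 0 ≤ p1 θ y) (hc : Continuous (p1 θ)) (t : ℝ) :
    HasDerivAt (rd θ) (rr θ t - ∫ y, p1 θ y * (1 + y ^ 2) ^ 2 * Real.cos (t * y)) t := by
  have := hasDerivAt_integral_of_dominated_loc_of_deriv_le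
    (μ := volume) (F := fun (t y : ℝ) => p1 θ y * (1 + y ^ 2) * (y * Real.sin (t * y)))
    (F' := fun (t y : ℝ) => p1 θ y * (1 + y ^ 2) * (y * (Real.cos (t * y) * y)))
    (x₀ := t) (s := Set.univ) (bound := fun y => p1 θ y * (1 + |y|) ^ 4) univ_mem
    (Eventually.of_forall fun t => by
      have : Continuous (fun y : ℝ => p1 θ y * (1 + y ^ 2) * (y * Real.sin (t * y))) := by
        fun_prop
      exact this.aestronglyMeasurable)
    (by
      have := int_of hI hn 3 (fun y => (1 + y ^ 2) * (y * Real.sin (t * y))) (by fun_prop) hc (by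
        intro y
        rw [abs_mul, abs_mul, abs_of_nonneg (by positivity : (0 : ℝ) ≤ 1 + y ^ 2)]
        calc (1 + y ^ 2) * (|y| * |Real.sin (t * y)|) ≤ (1 + y ^ 2) * (|y| * 1) := by
              apply mul_le_mul_of_nonneg_left _ (by positivity)
              exact mul_le_mul_of_nonneg_left (Real.abs_sin_le_one _) (abs_nonneg y)
          _ ≤ (1 + |y|) ^ 3 := by
              rw [mul_one]
              exact b3 y)
      simpa [mul_assoc] using this)
    (by
      have : Continuous (fun y : ℝ => p1 θ y * (1 + y ^ 2) * (y * (Real.cos (t * y) * y))) := by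
        fun_prop
      exact this.aestronglyMeasurable)
    (ae_of_all _ fun y x _ => by
      have h1 : |(1 + y ^ 2) * (y * (Real.cos (x * y) * y))| ≤ (1 + |y|) ^ 4 := by
        rw [abs_mul, abs_mul, abs_mul, abs_of_nonneg (by positivity : (0 : ℝ) ≤ 1 + y ^ 2)]
        calc (1 + y ^ 2) * (|y| * (|Real.cos (x * y)| * |y|))
            ≤ (1 + y ^ 2) * (|y| * (1 * |y|)) := by
              apply mul_le_mul_of_nonneg_left _ (by positivity)
              apply mul_le_mul_of_nonneg_left _ (abs_nonneg y)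
              exact mul_le_mul_of_nonneg_right (Real.abs_cos_le_one _) (abs_nonneg y)
          _ = (1 + y ^ 2) * y ^ 2 := by
              rw [one_mul, ← sq, sq_abs]
          _ ≤ (1 + |y|) ^ 4 := b4 y
      rw [Real.norm_eq_abs, mul_assoc, abs_mul, abs_of_nonneg (hn y)]
      exact mul_le_mul_of_nonneg_left h1 (hn y))
    (hI 4)
    (ae_of_all _ fun y x _ => by
      have h1 : HasDerivAt (fun x : ℝ => Real.sin (x * y)) (Real.cos (x * y) * y) x := by
        have := (hasDerivAt_mul_const (x := x) y).sin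
        simpa using this
      exact (h1.const_mul _).const_mul _)
  have h2 := this.2.neg
  have h3 : HasDerivAt (rd θ) (-∫ y, p1 θ y * (1 + y ^ 2) * (y * (Real.cos (t * y) * y))) t := h2
  refine h3.congr_deriv ?_
  rw [rr, ← integral_sub, ← integral_neg]
  · congr 1
    ext y
    ring
  · have := int_of hI hn 2 (fun y => (1 + y ^ 2) * Real.cos (t * y)) (by fun_prop) hc (by
      intro y
      rw [abs_mul, abs_of_nonneg (by positivity : (0 : ℝ) ≤ 1 + y ^ 2)]
      calc (1 + y ^ 2) * |Real.cos (t * y)| ≤ (1 + y ^ 2) * 1 :=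
            mul_le_mul_of_nonneg_left (Real.abs_cos_le_one _) (by positivity)
        _ ≤ (1 + |y|) ^ 2 := by linarith [b2 y])
    simpa [mul_assoc] using this
  · have := int_of hI hn 4 (fun y => (1 + y ^ 2) ^ 2 * Real.cos (t * y)) (by fun_prop) hc (by
      intro y
      rw [abs_mul, abs_of_nonneg (by positivity : (0 : ℝ) ≤ (1 + y ^ 2) ^ 2)]
      calc (1 + y ^ 2) ^ 2 * |Real.cos (t * y)| ≤ (1 + y ^ 2) ^ 2 * 1 :=
            mul_le_mul_of_nonneg_left (Real.abs_cos_le_one _) (by positivity)
        _ ≤ ((1 + |y|) ^ 2) ^ 2 := by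
            rw [mul_one]
            exact pow_le_pow_left₀ (by positivity) (b2 y) 2
        _ = (1 + |y|) ^ 4 := by ring)
    simpa [mul_assoc] using this

end

/-- if `a cosh t + b sinh t` is bounded below for all `t`, then `a + b ≥ 0` -/
theorem lim_pos {a b M : ℝ} (h : ∀ t : ℝ, -M ≤ a * Real.cosh t + b * Real.sinh t) :
    0 ≤ a + b := by
  by_contra hc
  push Not at hc
  set δ := -(a + b) with hδ
  have hδ0 : 0 < δ := by linarith
  set t := (2 * |M| + |a - b|) / δ with ht
  have ht0 : 0 ≤ t := by positivity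
  have h1 := h t
  rw [Real.cosh_eq, Real.sinh_eq] at h1
  have h2 : (a - b) * Real.exp (-t) ≤ |a - b| := by
    have e1 : Real.exp (-t) ≤ 1 := by
      rw [Real.exp_le_one_iff]
      linarith
    have e2 : 0 ≤ Real.exp (-t) := (Real.exp_pos _).le
    calc (a - b) * Real.exp (-t) ≤ |a - b| * Real.exp (-t) :=
          mul_le_mul_of_nonneg_right (le_abs_self _) e2
      _ ≤ |a - b| * 1 := mul_le_mul_of_nonneg_left e1 (abs_nonneg _)
      _ = |a - b| := mul_one _
  have h3 : δ * Real.exp t ≤ 2 * |M| + |a - b| := by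
    have := le_abs_self M
    nlinarith
  have h4 : t + 1 ≤ Real.exp t := Real.add_one_le_exp t
  have h5 : δ * (t + 1) ≤ 2 * |M| + |a - b| := (mul_le_mul_of_nonneg_left h4 hδ0.le).trans h3
  have h6 : δ * t = 2 * |M| + |a - b| := by
    rw [ht]
    field_simp
  nlinarith

/-- RR -/
theorem t (h1 : P_KRN) (h2 : P_NU) : P_RR := by
  intro θ h0 h01
  have hn := p1_nonneg h0 h01
  have hc := p1_cont h0 h01
  have hI : ∀ k : ℕ, Integrable (fun y : ℝ => p1 θ y * (1 + |y|) ^ k) := fun k =>
    ((h1 θ h0 h01).1 k).2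
  have hν := h2 θ h0 h01
  have key : ∀ s t : ℝ, rr θ (t + s) ≤ rr θ s * Real.cosh t + rd θ s * Real.sinh t := by
    intro s t
    have := cmp_all
      (g := fun t => rr θ s * Real.cosh t + rd θ s * Real.sinh t - rr θ (t + s))
      (g1 := fun t => rr θ s * Real.sinh t + rd θ s * Real.cosh t - rd θ (t + s))
      (g2 := fun t => rr θ s * Real.cosh t + rd θ s * Real.sinh t -
        (rr θ (t + s) - ∫ y, p1 θ y * (1 + y ^ 2) ^ 2 * Real.cos ((t + s) * y)))
      (fun t => by
        have a := (Real.hasDerivAt_cosh t).const_mul (rr θ s)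
        have b := (Real.hasDerivAt_sinh t).const_mul (rd θ s)
        have c : HasDerivAt (fun t => rr θ (t + s)) (rd θ (t + s)) t := by
          have := (der1 hI hn hc (t + s)).comp_add_const t s
          exact this
        exact (a.add b).sub c)
      (fun t => by
        have a := (Real.hasDerivAt_sinh t).const_mul (rr θ s)
        have b := (Real.hasDerivAt_cosh t).const_mul (rd θ s)
        have c := (der2 hI hn hc (t + s)).comp_add_const t s
        exact (a.add b).sub c)
      (fun t => by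
        have := hν (t + s)
        linarith)
      (by simp) (by simp) t
    linarith
  have hM : ∀ t : ℝ, -(∫ y, p1 θ y * (1 + y ^ 2)) ≤ rr θ t := by
    intro t
    rw [rr, ← integral_neg]
    apply integral_mono
    · have := int_of hI hn 2 (fun y => (1 + y ^ 2)) (by fun_prop) hc (by
        intro y
        rw [abs_of_nonneg (by positivity : (0 : ℝ) ≤ 1 + y ^ 2)]
        exact b2 y)
      exact this.neg
    · have := int_of hI hn 2 (fun y => (1 + y ^ 2) * Real.cos (t * y)) (by fun_prop) hc (by
        intro y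
        rw [abs_mul, abs_of_nonneg (by positivity : (0 : ℝ) ≤ 1 + y ^ 2)]
        calc (1 + y ^ 2) * |Real.cos (t * y)| ≤ (1 + y ^ 2) * 1 :=
              mul_le_mul_of_nonneg_left (Real.abs_cos_le_one _) (by positivity)
          _ ≤ (1 + |y|) ^ 2 := by linarith [b2 y])
      simpa [mul_assoc] using this
    · intro y
      simp only
      have h3 : 0 ≤ p1 θ y * (1 + y ^ 2) := mul_nonneg (hn y) (by positivity)
      have h4 := Real.neg_one_le_cos (t * y)
      nlinarith
  refine ⟨key, ?_, ?_⟩
  · intro s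
    apply lim_pos (M := ∫ y, p1 θ y * (1 + y ^ 2))
    intro t
    exact (hM _).trans (key s t)
  · intro s
    have := lim_pos (a := rr θ s) (b := - rd θ s) (M := ∫ y, p1 θ y * (1 + y ^ 2)) (by
      intro t
      have := (hM _).trans (key s (-t))
      rw [Real.cosh_neg, Real.sinh_neg] at this
      linarith)
    linarith

end Pool.Agent.H75PB.RR
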